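import Pool.Agent.E8helper19.QC.Stm

/-!
Project QC, piece QC8a: the even case.
-/

set_option autoImplicit false
open MeasureTheory Filter Topology SchwartzMap FourierTransform
open scoped ContDiff ENNReal Real

namespace Pool.Agent.E8helper81.QC

open Pool.Agent.E8helper19.QC

/-- the multiplier -/
lemma temp (n k : ℕ) :
    (fun ξ : E n => (((2 * π * ‖ξ‖) ^ (2 * k) : ℝ) : ℂ)).HasTemperateGrowth := by
  have h1 : (fun ξ : E n => ‖ξ‖ ^ 2).HasTemperateGrowth :=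
    Function.hasTemperateGrowth_norm_sq (E n)
  have h2 : (fun ξ : E n => (2 * π) ^ 2 * ‖ξ‖ ^ 2).HasTemperateGrowth :=
    (Function.HasTemperateGrowth.const ((2 * π) ^ 2)).mul h1
  have h3 := h2.pow k
  have h4 : (fun ξ : E n => (((((2 * π) ^ 2 * ‖ξ‖ ^ 2) ^ k : ℝ)) : ℂ)).HasTemperateGrowth :=
    Function.HasTemperateGrowth.comp Function.Complex.hasTemperateGrowth_ofReal h3
  convert h4 using 3 with ξ
  rw [pow_mul, mul_pow]

/-- the function `(-Δ)^k φ` -/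
lemma ex (n k : ℕ) (φ : 𝓢(E n, ℂ)) : ∃ ψ : 𝓢(E n, ℂ), IsLap k φ ψ ∧
    (n = 2 * k → ∀ x, FL n φ x = ψ x) := by
  obtain ⟨g, hg⟩ : ∃ g : 𝓢(E n, ℂ), ∀ ξ : E n,
      g ξ = (((2 * π * ‖ξ‖) ^ (2 * k) : ℝ) : ℂ) * 𝓕 (φ : E n → ℂ) ξ := by
    refine ⟨smulLeftCLM ℂ (fun ξ : E n => (((2 * π * ‖ξ‖) ^ (2 * k) : ℝ) : ℂ)) (𝓕 φ), fun ξ => ?_⟩
    rw [smulLeftCLM_apply_apply (temp n k), fourier_coe, smul_eq_mul]
  refine ⟨𝓕⁻ g, ?_, ?_⟩
  · intro ξ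
    rw [← fourier_coe, FourierTransform.fourier_fourierInv_eq, hg]
  · intro hn x
    have h1 : (fun ξ : E n => (((2 * π * ‖ξ‖) ^ n : ℝ) : ℂ) * 𝓕 (φ : E n → ℂ) ξ) = (g : E n → ℂ) := by
      funext ξ
      rw [hg, ← hn]
    unfold FL
    rw [h1, fourierInv_coe]

lemma integ {n : ℕ} (ψ : 𝓢(E n, ℂ)) (m : ℕ) : Integrable (fun x => (1 + ‖x‖) ^ m * ‖ψ x‖) := by
  have h1 : ∀ x : E n, (1 + ‖x‖) ^ m * ‖ψ x‖ =
      ∑ i ∈ Finset.range (m + 1), (m.choose i : ℝ) * (‖x‖ ^ (m - i) * ‖ψ x‖) := by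
    intro x
    rw [add_pow, Finset.sum_mul]
    refine Finset.sum_congr rfl fun i _ => ?_
    rw [one_pow]
    ring
  simp only [h1]
  refine integrable_finsetSum _ fun i _ => ?_
  exact (ψ.integrable_pow_mul volume (m - i)).const_mul _

theorem t_DECE : S_DECE := by
  refine ⟨fun n k φ => ex n k φ, ?_⟩
  intro n φ hn
  obtain ⟨k, hk⟩ := hn.two_dvd
  obtain ⟨ψ, -, h⟩ := ex n k φ
  have h1 : FL n φ = (ψ : E n → ℂ) := funext (h hk)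
  rw [h1]
  refine ⟨ψ.continuous, ⟨SchwartzMap.seminorm ℝ 0 0 ψ, fun x => norm_le_seminorm ℝ ψ x⟩,
    integ ψ (n - 1)⟩

end Pool.Agent.E8helper81.QC
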